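import Pool.Agent.Helper227.EN.Main

set_option autoImplicit false

open Pool.Agent.Helper227 Pool.Agent.Helper227.EN

namespace Pool.Agent.Results.MP_9e051a_lc.NoEnumeration

/-- Positive answer to Q1: for every completion `T` of Peano arithmetic there is a nonstandard
model `A` of `T` with universe `ℕ` such that no enumeration of `Rep(T)` (the family of sets
representable in `T`) is computable in `A`, that is, Turing reducible to the atomic diagram
of `A`. -/
theorem result (T : LA.Theory) (hcomplete : T.IsComplete) (hPA : PA ⊆ T) :
    ∃ A : LA.Structure ℕ,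
      @FirstOrder.Language.Theory.Model LA ℕ A T ∧
      ¬ Nonempty (@FirstOrder.Language.Equiv LA ℕ ℕ A stdStr) ∧
      ∀ R : ℕ → Bool, IsEnum R (Rep T) → ¬ TuringReducible (chi R) (chi (diag A)) :=
  EN.main T hcomplete hPA

end Pool.Agent.Results.MP_9e051a_lc.NoEnumeration
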